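import Pool.Agent.helper29.JZ.Spec

/-! # Row jz:CNT: the number of common points of two curves -/

set_option autoImplicit false

open Finset Polynomial Module
open Pool.Agent.helper29.JZ

namespace Pool.Agent.helper77.JZ

theorem jz_CNT : CNT_stmt := by
  intro hHME h h' x y M P Q P' Q' hx hR
  obtain ⟨e1, e2, _, e4, _⟩ := hHME
  have hmem : ∀ z ∈ HC x y M P Q ∩ HB x y M P' Q', z ∈ PA M ∧
      P.eval (x z.1) * y z.2 = Q.eval (x z.1) ∧ P'.eval (y z.2) * x z.1 = Q'.eval (y z.2) := by
    intro z hz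
    rw [Finset.mem_inter] at hz
    obtain ⟨hz1, hz2⟩ := hz
    unfold HC at hz1
    unfold HB at hz2
    rw [Finset.mem_filter] at hz1 hz2
    exact ⟨hz1.1, hz1.2, hz2.2⟩
  have hroot : ∀ z ∈ HC x y M P Q ∩ HB x y M P' Q', (RR P Q P' Q').eval (x z.1) = 0 := by
    intro z hz
    obtain ⟨_, h1, h2⟩ := hmem z hz
    unfold RR
    rw [eval_sub, eval_mul, eval_X, e1, e1, ← h1, mul_comm (P.eval (x z.1)) (y z.2),
      e2 _ P' _ _ (le_max_left _ _), e2 _ Q' _ _ (le_max_right _ _), ← h2]
    ring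
  have hinj : Set.InjOn (fun z : Fin h × Fin h' => x z.1)
      ((HC x y M P Q ∩ HB x y M P' Q' : Finset (Fin h × Fin h')) : Set (Fin h × Fin h')) := by
    intro z hz z' hz' heq
    have h1 : z.1 = z'.1 := hx heq
    have h2 := (hmem z (Finset.mem_coe.1 hz)).1
    have h3 := (hmem z' (Finset.mem_coe.1 hz')).1
    unfold PA at h2 h3
    rw [Finset.mem_filter] at h2 h3
    have h4 : (M.filter fun w => w.1 = z.1).card ≤ 1 := le_of_eq h2.2
    exact Finset.card_le_one.1 h4 z (Finset.mem_filter.2 ⟨h2.1, rfl⟩) z'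
      (Finset.mem_filter.2 ⟨h3.1, h1.symm⟩)
  classical
  have hsub : (HC x y M P Q ∩ HB x y M P' Q').image (fun z => x z.1) ⊆
      (RR P Q P' Q').roots.toFinset := by
    intro c hc
    obtain ⟨z, hz, rfl⟩ := Finset.mem_image.1 hc
    rw [Multiset.mem_toFinset, mem_roots hR, IsRoot.def]
    exact hroot z hz
  have hdeg : (RR P Q P' Q').natDegree ≤
      max P'.natDegree Q'.natDegree * max P.natDegree Q.natDegree + 1 := by
    unfold RR
    refine (natDegree_sub_le _ _).trans (max_le ?_ ?_)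
    · refine natDegree_mul_le.trans ?_
      rw [natDegree_X, add_comm]
      exact Nat.add_le_add_right (e4 _ _ P' P Q (le_max_left _ _) (le_max_right _ _)) 1
    · exact (e4 _ _ Q' P Q (le_max_left _ _) (le_max_right _ _)).trans (Nat.le_succ _)
  calc (HC x y M P Q ∩ HB x y M P' Q').card
      = ((HC x y M P Q ∩ HB x y M P' Q').image (fun z => x z.1)).card :=
        (Finset.card_image_of_injOn hinj).symm
    _ ≤ (RR P Q P' Q').roots.toFinset.card := Finset.card_le_card hsub
    _ ≤ Multiset.card (RR P Q P' Q').roots := Multiset.toFinset_card_le _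
    _ ≤ (RR P Q P' Q').natDegree := card_roots' _
    _ ≤ _ := hdeg

end Pool.Agent.helper77.JZ
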